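import Pool.Agent.H768.C4.Iface2
import Pool.Agent.H44.C4.Flow

/-!
# C4-GRP: a limit of convex bodies with more and more affine symmetries (by helper154)
-/

set_option autoImplicit false
set_option linter.unusedSectionVars false
set_option linter.style.haveILetI false

open Set Topology Module Filter

namespace Pool.Agent.H154.C4

open Pool.Agent.H768.C4 (Ed Conv S_grp)
open Pool.Agent.H44.C4 (exp_lim)

/-! ### pigeonhole -/

theorem pigeon {E : Type} [NormedAddCommGroup E] [ProperSpace E] (C : ℝ) {ε : ℝ} (hε : 0 < ε) :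
    ∃ M : ℕ, ∀ S : Finset E, (∀ A ∈ S, ‖A‖ ≤ C) → M < S.card →
      ∃ A ∈ S, ∃ A' ∈ S, A ≠ A' ∧ ‖A - A'‖ < ε := by
  classical
  have h1 := (isCompact_closedBall (0 : E) C).totallyBounded
  rw [Metric.totallyBounded_iff] at h1
  obtain ⟨t, ht, hcov⟩ := h1 (ε / 2) (by positivity)
  refine ⟨ht.toFinset.card, fun S hS hcard => ?_⟩
  have h2 : ∀ A ∈ S, ∃ y ∈ ht.toFinset, A ∈ Metric.ball y (ε / 2) := by
    intro A hA
    have := hcov (show A ∈ Metric.closedBall (0 : E) C by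
      rw [mem_closedBall_zero_iff]; exact hS A hA)
    obtain ⟨y, hy, hAy⟩ := mem_iUnion₂.1 this
    exact ⟨y, ht.mem_toFinset.2 hy, hAy⟩
  have h3 : ∃ f : E → E, ∀ A ∈ S, f A ∈ ht.toFinset ∧ A ∈ Metric.ball (f A) (ε / 2) := by
    refine ⟨fun A => if h : A ∈ S then (h2 A h).choose else A, fun A hA => ?_⟩
    simp only [hA, dif_pos]
    exact (h2 A hA).choose_spec
  obtain ⟨f, hf⟩ := h3
  obtain ⟨A, hA, A', hA', hne, he⟩ := Finset.exists_ne_map_eq_of_card_lt_of_maps_to hcard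
    (fun A hA => (hf A hA).1)
  refine ⟨A, hA, A', hA', hne, ?_⟩
  have h4 := (hf A hA).2
  have h5 := (hf A' hA').2
  rw [← he] at h5
  rw [Metric.mem_ball] at h4 h5
  rw [← dist_eq_norm]
  have := dist_triangle_right A A' (f A)
  linarith

/-! ### one-parameter groups in a Banach algebra -/

section alg

variable {𝔸 : Type} [NormedRing 𝔸] [NormedAlgebra ℝ 𝔸] [CompleteSpace 𝔸]

theorem exp_mul_exp (X : 𝔸) (s t : ℝ) :
    NormedSpace.exp (s • X) * NormedSpace.exp (t • X) = NormedSpace.exp ((s + t) • X) := by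
  letI : NormedAlgebra ℚ 𝔸 := NormedAlgebra.restrictScalars ℚ ℝ 𝔸
  rw [add_smul, NormedSpace.exp_add_of_commute (((Commute.refl X).smul_left s).smul_right t)]

theorem exp_mul_exp_neg (X : 𝔸) (s : ℝ) :
    NormedSpace.exp (s • X) * NormedSpace.exp (s • (-X)) = 1 := by
  letI : NormedAlgebra ℚ 𝔸 := NormedAlgebra.restrictScalars ℚ ℝ 𝔸
  rw [smul_neg, ← neg_smul, exp_mul_exp, add_neg_cancel, zero_smul, NormedSpace.exp_zero]

theorem exp_inj_near {X : 𝔸} (hX : X ≠ 0) : ∃ δ : ℝ, 0 < δ ∧ ∀ s ∈ Ioo (0 : ℝ) δ,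
    ∀ t ∈ Ioo (0 : ℝ) δ, s < t → NormedSpace.exp (s • X) ≠ NormedSpace.exp (t • X) := by
  letI : NormedAlgebra ℚ 𝔸 := NormedAlgebra.restrictScalars ℚ ℝ 𝔸
  have hder : HasDerivAt (fun u : ℝ => NormedSpace.exp (u • X)) X 0 := by
    have := hasDerivAt_exp_smul_const (𝕂 := ℝ) X (0 : ℝ)
    rw [zero_smul, NormedSpace.exp_zero, one_mul] at this
    exact this
  have hev : ∀ᶠ z in 𝓝[>] (0 : ℝ), NormedSpace.exp (z • X) ≠ 1 := by
    have h7 := hder.eventually_ne (c := (1 : 𝔸)) hX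
    exact h7.filter_mono (nhdsWithin_mono _ fun z (hz : (0 : ℝ) < z) => ne_of_gt hz)
  obtain ⟨δ, hδ, hδ'⟩ := mem_nhdsGT_iff_exists_Ioo_subset.1 hev
  refine ⟨δ, hδ, ?_⟩
  intro s hs t ht hst h8
  have h9 : NormedSpace.exp ((t - s) • X) = 1 := by
    have h10 := exp_mul_exp X t (-s)
    rw [← sub_eq_add_neg] at h10
    rw [← h10, ← h8, exp_mul_exp, add_neg_cancel, zero_smul, NormedSpace.exp_zero]
  exact hδ' ⟨by linarith, by linarith [ht.2, hs.1]⟩ h9

theorem alg_flow [ProperSpace 𝔸] {B B' : ℕ → 𝔸} {C : ℝ} (hB : ∀ n k, ‖(B n) ^ k‖ ≤ C)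
    (hB' : ∀ n k, ‖(B' n) ^ k‖ ≤ C) (hBB : ∀ n, B' n * B n = 1) (hne : ∀ n, B n ≠ 1)
    (ht0 : Tendsto (fun n => ‖B n - 1‖) atTop (𝓝 0)) :
    ∃ (X : 𝔸) (φ : ℕ → ℕ), X ≠ 0 ∧ StrictMono φ ∧ ∀ s : ℝ, 0 ≤ s →
      Tendsto (fun n => (B (φ n)) ^ ⌊s / ‖B (φ n) - 1‖⌋₊) atTop (𝓝 (NormedSpace.exp (s • X))) ∧
      Tendsto (fun n => (B' (φ n)) ^ ⌊s / ‖B (φ n) - 1‖⌋₊) atTop
        (𝓝 (NormedSpace.exp (s • (-X)))) := by
  have htp : ∀ n, 0 < ‖B n - 1‖ := fun n => norm_pos_iff.2 (sub_ne_zero.2 (hne n))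
  have hsph : ∀ n, (‖B n - 1‖)⁻¹ • (B n - 1) ∈ Metric.sphere (0 : 𝔸) 1 := by
    intro n
    rw [mem_sphere_zero_iff_norm, norm_smul, norm_inv, norm_norm, inv_mul_cancel₀ (htp n).ne']
  obtain ⟨X, hX, φ, hφ, hlimX⟩ := (isCompact_sphere (0 : 𝔸) 1).tendsto_subseq hsph
  have hX0 : X ≠ 0 := by
    rintro rfl
    rw [mem_sphere_zero_iff_norm, norm_zero] at hX
    exact zero_ne_one hX
  have hφt : Tendsto φ atTop atTop := hφ.tendsto_atTop
  have hB'1 : Tendsto (fun n => B' (φ n)) atTop (𝓝 1) := by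
    have h3 : ∀ n, ‖B' (φ n) - 1‖ ≤ C * ‖B (φ n) - 1‖ := by
      intro n
      have e : B' (φ n) - 1 = - (B' (φ n) * (B (φ n) - 1)) := by
        rw [mul_sub, hBB, mul_one, neg_sub]
      rw [e, norm_neg]
      refine (norm_mul_le _ _).trans (mul_le_mul_of_nonneg_right ?_ (norm_nonneg _))
      have := hB' (φ n) 1
      rwa [pow_one] at this
    rw [tendsto_iff_norm_sub_tendsto_zero]
    refine squeeze_zero (fun n => norm_nonneg _) h3 ?_
    simpa using (ht0.comp hφt).const_mul C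
  have hlimX' : Tendsto (fun n => (‖B (φ n) - 1‖)⁻¹ • (B' (φ n) - 1)) atTop (𝓝 (-X)) := by
    have h4 : Tendsto (fun n => -(B' (φ n) * ((‖B (φ n) - 1‖)⁻¹ • (B (φ n) - 1)))) atTop
        (𝓝 (-(1 * X))) := (hB'1.mul hlimX).neg
    rw [one_mul] at h4
    refine h4.congr fun n => ?_
    rw [mul_smul_comm, mul_sub, hBB, mul_one, ← smul_neg, neg_sub]
  refine ⟨X, φ, hX0, hφ, fun s hs => ⟨?_, ?_⟩⟩
  · exact exp_lim (B := fun n => B (φ n)) (t := fun n => ‖B (φ n) - 1‖)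
      (fun n k => hB (φ n) k) (fun n => htp (φ n)) (ht0.comp hφt) hlimX hs
  · exact exp_lim (B := fun n => B' (φ n)) (t := fun n => ‖B (φ n) - 1‖)
      (fun n k => hB' (φ n) k) (fun n => htp (φ n)) (ht0.comp hφt) hlimX' hs

end alg

/-! ### linear maps of the cone -/

section cone

variable {d : ℕ}

/-- the algebra of the linear maps of `ℝ^d × ℝ` -/
abbrev Al (d : ℕ) : Type := (Ed d × ℝ) →L[ℝ] (Ed d × ℝ)

/-- linear maps which preserve the height and map `K` into itself at the height one -/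
def Sy (K : Set (Ed d)) : Set (Al d) :=
  {A | (∀ p, (A p).2 = p.2) ∧ ∀ x ∈ K, (A (x, 1)).1 ∈ K}

theorem one_Sy (K : Set (Ed d)) : (1 : Al d) ∈ Sy K :=
  ⟨fun _ => rfl, fun _ hx => hx⟩

theorem app_one {A : Al d} (hA : ∀ p, (A p).2 = p.2) (x : Ed d) :
    A (x, 1) = ((A (x, 1)).1, 1) := Prod.ext rfl (hA _)

theorem mul_Sy {K : Set (Ed d)} {A B : Al d} (hA : A ∈ Sy K) (hB : B ∈ Sy K) : A * B ∈ Sy K := by
  refine ⟨fun p => ?_, fun x hx => ?_⟩
  · change (A (B p)).2 = p.2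
    rw [hA.1, hB.1]
  · change (A (B (x, 1))).1 ∈ K
    rw [app_one hB.1]
    exact hA.2 _ (hB.2 x hx)

theorem pow_Sy {K : Set (Ed d)} {A : Al d} (hA : A ∈ Sy K) (k : ℕ) : A ^ k ∈ Sy K := by
  induction k with
  | zero => rw [pow_zero]; exact one_Sy K
  | succ k ih => rw [pow_succ]; exact mul_Sy ih hA

theorem bound_Sy {K : Set (Ed d)} {R : ℝ} (h1 : Metric.closedBall 0 1 ⊆ K)
    (h2 : K ⊆ Metric.closedBall 0 R) {A : Al d} (hA : A ∈ Sy K) : ‖A‖ ≤ 3 * R + 1 := by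
  have h0 : (0 : Ed d) ∈ K := h1 (Metric.mem_closedBall_self zero_le_one)
  have hR : 0 ≤ R := by
    have := h2 h0
    rw [mem_closedBall_zero_iff, norm_zero] at this
    exact this
  have hc : ‖(A (0, 1)).1‖ ≤ R := by
    have := h2 (hA.2 0 h0)
    rwa [mem_closedBall_zero_iff] at this
  have hc1 : ‖A (0, 1)‖ ≤ R + 1 := by
    rw [Prod.norm_def, hA.1]
    simp only [norm_one]
    exact max_le (by linarith) (by linarith)
  have hu : ∀ x : Ed d, ‖A (x, 0)‖ ≤ 2 * R * ‖x‖ := by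
    intro x
    rcases eq_or_ne x 0 with rfl | hx
    · have : ((0 : Ed d), (0 : ℝ)) = 0 := rfl
      rw [this, map_zero]; simp
    · have hx' : 0 < ‖x‖ := norm_pos_iff.2 hx
      set u : Ed d := (‖x‖)⁻¹ • x with hu
      have hu1 : u ∈ Metric.closedBall (0 : Ed d) 1 := by
        rw [mem_closedBall_zero_iff, hu, norm_smul, norm_inv, norm_norm, inv_mul_cancel₀ hx'.ne']
      have h3 : ‖(A (u, 1)).1‖ ≤ R := by
        have := h2 (hA.2 u (h1 hu1))
        rwa [mem_closedBall_zero_iff] at this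
      have h4 : A (u, 0) = A (u, 1) - A (0, 1) := by
        rw [← map_sub]
        congr 1
        simp
      have h5 : ‖A (u, 0)‖ ≤ 2 * R := by
        rw [Prod.norm_def, hA.1]
        simp only [norm_zero]
        refine max_le ?_ (by linarith)
        rw [h4, Prod.fst_sub]
        exact (norm_sub_le _ _).trans (by linarith)
      have h6 : ((x, 0) : Ed d × ℝ) = ‖x‖ • (u, (0 : ℝ)) := by
        rw [Prod.smul_mk, hu, smul_smul, mul_inv_cancel₀ hx'.ne', one_smul, smul_zero]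
      rw [h6, map_smul, norm_smul, norm_norm, mul_comm]
      exact mul_le_mul_of_nonneg_right h5 hx'.le
  refine ContinuousLinearMap.opNorm_le_bound _ (by linarith) fun p => ?_
  obtain ⟨x, s⟩ := p
  have h7 : ((x, s) : Ed d × ℝ) = (x, 0) + s • (0, 1) := by simp
  have hx : ‖x‖ ≤ ‖((x, s) : Ed d × ℝ)‖ := norm_fst_le (x, s)
  have hs : ‖s‖ ≤ ‖((x, s) : Ed d × ℝ)‖ := norm_snd_le (x, s)
  calc ‖A (x, s)‖ = ‖A (x, 0) + s • A (0, 1)‖ := by rw [h7, map_add, map_smul]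
    _ ≤ ‖A (x, 0)‖ + ‖s • A (0, 1)‖ := norm_add_le _ _
    _ ≤ 2 * R * ‖x‖ + ‖s‖ * (R + 1) := by
        rw [norm_smul]
        exact add_le_add (hu x) (mul_le_mul_of_nonneg_left hc1 (norm_nonneg _))
    _ ≤ 2 * R * ‖((x, s) : Ed d × ℝ)‖ + ‖((x, s) : Ed d × ℝ)‖ * (R + 1) :=
        add_le_add (mul_le_mul_of_nonneg_left hx (by linarith))
          (mul_le_mul_of_nonneg_right hs (by linarith))
    _ = (3 * R + 1) * ‖((x, s) : Ed d × ℝ)‖ := by ring

/-- limits of symmetries -/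
theorem lim_Sy {L : ℕ → Set (Ed d)} {L0 : Set (Ed d)} (hc : IsCompact L0) (hL : Conv L L0)
    {ψ : ℕ → ℕ} (hψ : Tendsto ψ atTop atTop) {A : ℕ → Al d} {A0 : Al d}
    (hA : ∀ k, A k ∈ Sy (L (ψ k))) (h : Tendsto A atTop (𝓝 A0)) : A0 ∈ Sy L0 := by
  have happ : ∀ p, Tendsto (fun k => A k p) atTop (𝓝 (A0 p)) := fun p =>
    ((ContinuousLinearMap.apply ℝ (Ed d × ℝ) p).continuous.tendsto A0).comp h
  refine ⟨fun p => ?_, fun x hx => ?_⟩
  · have h1 : Tendsto (fun k => (A k p).2) atTop (𝓝 (A0 p).2) :=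
      (continuous_snd.tendsto _).comp (happ p)
    refine tendsto_nhds_unique h1 (tendsto_const_nhds.congr fun k => ((hA k).1 p).symm)
  · have key : ∀ ε : ℝ, 0 < ε → (1 + ε)⁻¹ • (A0 ((1 + ε)⁻¹ • x, 1)).1 ∈ L0 := by
      intro ε hε
      have hε1 : (1 + ε) ≠ 0 := by positivity
      obtain ⟨n0, hn0⟩ := hL ε hε
      have h1 : Tendsto (fun k => (1 + ε)⁻¹ • (A k ((1 + ε)⁻¹ • x, 1)).1) atTop
          (𝓝 ((1 + ε)⁻¹ • (A0 ((1 + ε)⁻¹ • x, 1)).1)) :=
        ((continuous_fst.tendsto _).comp (happ _)).const_smul _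
      refine hc.isClosed.mem_of_tendsto h1 ?_
      filter_upwards [hψ.eventually_ge_atTop n0] with k hk
      obtain ⟨h2, h3⟩ := hn0 (ψ k) hk
      obtain ⟨z, hz, hzx⟩ := h3 hx
      simp only at hzx
      have h4 : (1 + ε)⁻¹ • x = z := by rw [← hzx, smul_smul, inv_mul_cancel₀ hε1, one_smul]
      rw [h4]
      obtain ⟨y, hy, hyz⟩ := h2 ((hA k).2 z hz)
      simp only at hyz
      rw [← hyz, smul_smul, inv_mul_cancel₀ hε1, one_smul]
      exact hy
    have h5 : Tendsto (fun ε : ℝ => (1 + ε)⁻¹ • (A0 ((1 + ε)⁻¹ • x, 1)).1) (𝓝[>] 0)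
        (𝓝 ((1 + (0 : ℝ))⁻¹ • (A0 ((1 + (0 : ℝ))⁻¹ • x, 1)).1)) := by
      refine Tendsto.mono_left ?_ nhdsWithin_le_nhds
      have h6 : ContinuousAt (fun ε : ℝ => (1 + ε)⁻¹) 0 := by
        refine ContinuousAt.inv₀ (by fun_prop) (by norm_num)
      have h7 : ContinuousAt (fun ε : ℝ => (1 + ε)⁻¹ • (A0 ((1 + ε)⁻¹ • x, 1)).1) 0 := by
        refine h6.smul ?_
        refine continuous_fst.continuousAt.comp (A0.continuous.continuousAt.comp ?_)
        exact (h6.smul continuousAt_const).prodMk continuousAt_const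
      exact h7
    rw [add_zero, inv_one, one_smul, one_smul] at h5
    refine hc.isClosed.mem_of_tendsto h5 ?_
    filter_upwards [self_mem_nhdsWithin] with ε hε
    exact key ε hε

/-! ### affine maps -/

/-- the linear map of the cone of an affine map -/
noncomputable def hat (g : Ed d →ᵃ[ℝ] Ed d) : Al d :=
  LinearMap.toContinuousLinearMap (LinearMap.prod
    (g.linear.comp (LinearMap.fst ℝ (Ed d) ℝ) +
      (LinearMap.toSpanSingleton ℝ (Ed d) (g 0)).comp (LinearMap.snd ℝ (Ed d) ℝ))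
    (LinearMap.snd ℝ (Ed d) ℝ))

theorem hat_apply (g : Ed d →ᵃ[ℝ] Ed d) (p : Ed d × ℝ) :
    hat g p = (g.linear p.1 + p.2 • g 0, p.2) := rfl

theorem aff_eq (g : Ed d →ᵃ[ℝ] Ed d) (x : Ed d) : g x = g.linear x + g 0 := by
  have := g.map_vadd 0 x
  simpa using this

theorem hat_one_apply (g : Ed d →ᵃ[ℝ] Ed d) (x : Ed d) : hat g (x, 1) = (g x, 1) := by
  rw [hat_apply, aff_eq g x]
  simp

theorem hat_inj {g h : Ed d →ᵃ[ℝ] Ed d} (e : hat g = hat h) : g = h := by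
  ext1 x
  have h1 : hat g (x, 1) = hat h (x, 1) := by rw [e]
  rw [hat_one_apply, hat_one_apply] at h1
  exact (Prod.mk.inj h1).1

theorem hat_mul (g h : Ed d →ᵃ[ℝ] Ed d) : hat g * hat h = hat (g.comp h) := by
  refine ContinuousLinearMap.ext fun p => ?_
  change hat g (hat h p) = _
  rw [hat_apply, hat_apply, hat_apply, AffineMap.comp_apply, aff_eq g (h 0)]
  simp only [AffineMap.comp_linear, LinearMap.comp_apply, map_add, map_smul, smul_add]
  rw [add_assoc]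

theorem hat_id : hat (AffineMap.id ℝ (Ed d)) = 1 := by
  refine ContinuousLinearMap.ext fun p => ?_
  rw [hat_apply]
  simp

theorem hat_Sy {K : Set (Ed d)} {g : Ed d →ᵃ[ℝ] Ed d} (hg : g '' K = K) : hat g ∈ Sy K := by
  refine ⟨fun p => rfl, fun x hx => ?_⟩
  rw [hat_one_apply, ← hg]
  exact mem_image_of_mem _ hx

theorem exists_inv {K : Set (Ed d)} (h1 : Metric.closedBall 0 1 ⊆ K) {g : Ed d →ᵃ[ℝ] Ed d}
    (hg : g '' K = K) : ∃ g' : Ed d →ᵃ[ℝ] Ed d, g' '' K = K ∧ hat g' * hat g = 1 ∧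
      hat g * hat g' = 1 := by
  have h0 : (0 : Ed d) ∈ K := h1 (Metric.mem_closedBall_self zero_le_one)
  have hsur : Function.Surjective g.linear := by
    rw [← LinearMap.range_eq_top]
    refine Submodule.eq_top_of_nonempty_interior' _ ⟨0, ?_⟩
    rw [mem_interior_iff_mem_nhds]
    refine Filter.mem_of_superset (Metric.closedBall_mem_nhds (0 : Ed d) zero_lt_one) ?_
    intro x hx
    have hx' := h1 hx
    rw [← hg] at hx' h0
    obtain ⟨u, -, hu⟩ := hx'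
    obtain ⟨v, -, hv⟩ := h0
    refine ⟨u - v, ?_⟩
    rw [map_sub]
    rw [aff_eq] at hu hv
    have h2 : g.linear u - g.linear v = (g.linear u + g 0) - (g.linear v + g 0) := by abel
    rw [h2, hu, hv, sub_zero]
  have hbij : Function.Bijective g.linear := ⟨LinearMap.injective_iff_surjective.2 hsur, hsur⟩
  have hb : Function.Bijective g := g.linear_bijective_iff.1 hbij
  let e := AffineEquiv.ofBijective hb
  have he1 : ∀ x, e.symm (g x) = x := fun x => e.symm_apply_apply x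
  have he2 : ∀ x, g (e.symm x) = x := fun x => e.apply_symm_apply x
  refine ⟨e.symm, ?_, ?_, ?_⟩
  · conv_lhs => rw [← hg]
    rw [← image_comp]
    have : ((e.symm : Ed d →ᵃ[ℝ] Ed d) ∘ g : Ed d → Ed d) = id := funext he1
    rw [this, image_id]
  · rw [hat_mul, ← hat_id]
    congr 1
    ext1 x
    exact he1 x
  · rw [hat_mul, ← hat_id]
    congr 1
    ext1 x
    exact he2 x

/-- the affine map at the height one -/
noncomputable def aff (A : Al d) : Ed d →ᵃ[ℝ] Ed d :=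
  ((LinearMap.fst ℝ (Ed d) ℝ).comp ((A : (Ed d × ℝ) →ₗ[ℝ] (Ed d × ℝ)).comp
    (LinearMap.inl ℝ (Ed d) ℝ))).toAffineMap + AffineMap.const ℝ (Ed d) (A (0, 1)).1

theorem aff_apply (A : Al d) (x : Ed d) : aff A x = (A (x, 1)).1 := by
  have h1 : aff A x = (A (x, 0)).1 + (A (0, 1)).1 := rfl
  rw [h1, ← Prod.fst_add, ← map_add]
  simp

theorem aff_inj {A B : Al d} (hA : ∀ p, (A p).2 = p.2) (hB : ∀ p, (B p).2 = p.2)
    (h : aff A = aff B) : A = B := by
  have h1 : ∀ x, A (x, 1) = B (x, 1) := fun x => by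
    rw [app_one hA, app_one hB, ← aff_apply, ← aff_apply, h]
  refine ContinuousLinearMap.ext fun p => ?_
  obtain ⟨x, s⟩ := p
  have e : ((x, s) : Ed d × ℝ) = (x, 1) + (s - 1) • (0, 1) := by simp
  rw [e, map_add, map_smul, map_add, map_smul, h1, h1]

end cone

theorem grp : S_grp := by
  intro d R L L0 hL hconv hcomp hball hlim hsym
  haveI : ProperSpace (Al d) := FiniteDimensional.proper_real _
  have hR : 0 ≤ R := by
    have h0 := (hL 0).2.2.2 ((hL 0).2.2.1 (Metric.mem_closedBall_self zero_le_one))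
    rw [mem_closedBall_zero_iff, norm_zero] at h0
    exact h0
  have hbd : ∀ n, ∀ A ∈ Sy (L n), ‖A‖ ≤ 3 * R + 1 := fun n A hA =>
    bound_Sy (hL n).2.2.1 (hL n).2.2.2 hA
  have hC0 : 0 < 3 * R + 1 := by linarith
  have h1 : ∀ k : ℕ, ∃ (n : ℕ) (B B' : Al d), k ≤ n ∧ B ∈ Sy (L n) ∧ B' ∈ Sy (L n) ∧
      B' * B = 1 ∧ B * B' = 1 ∧ B ≠ 1 ∧ ‖B - 1‖ < 1 / ((k : ℝ) + 1) := by
    classical
    intro k
    obtain ⟨M, hM⟩ := pigeon (E := Al d) (3 * R + 1) (ε := 1 / ((k : ℝ) + 1) / (3 * R + 1))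
      (by positivity)
    obtain ⟨s, hs, hsg⟩ := hsym (max k (M + 1))
    have hcard : (s.image hat).card = s.card :=
      Finset.card_image_of_injective s fun g h e => hat_inj e
    obtain ⟨A, hA, A', hA', hne, hlt⟩ := hM (s.image hat) (by
      intro A hA
      obtain ⟨g, hg, rfl⟩ := Finset.mem_image.1 hA
      exact hbd _ _ (hat_Sy (hsg g hg))) (by
      rw [hcard]
      have := le_max_right k (M + 1)
      omega)
    obtain ⟨g, hg, rfl⟩ := Finset.mem_image.1 hA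
    obtain ⟨g', hg', rfl⟩ := Finset.mem_image.1 hA'
    obtain ⟨gi, hgi1, hgi2, hgi3⟩ := exists_inv (hL _).2.2.1 (hsg g hg)
    obtain ⟨gi', hgi1', hgi2', hgi3'⟩ := exists_inv (hL _).2.2.1 (hsg g' hg')
    refine ⟨max k (M + 1), hat gi' * hat g, hat gi * hat g', le_max_left _ _,
      mul_Sy (hat_Sy hgi1') (hat_Sy (hsg g hg)), mul_Sy (hat_Sy hgi1) (hat_Sy (hsg g' hg')),
      ?_, ?_, ?_, ?_⟩
    · calc hat gi * hat g' * (hat gi' * hat g) = hat gi * (hat g' * hat gi') * hat g := by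
            noncomm_ring
        _ = 1 := by rw [hgi3', mul_one, hgi2]
    · calc hat gi' * hat g * (hat gi * hat g') = hat gi' * (hat g * hat gi) * hat g' := by
            noncomm_ring
        _ = 1 := by rw [hgi3, mul_one, hgi2']
    · intro h
      apply hne
      calc hat g = hat g' * hat gi' * hat g := by rw [hgi3', one_mul]
        _ = hat g' * (hat gi' * hat g) := mul_assoc _ _ _
        _ = hat g' := by rw [h, mul_one]
    · have e : hat gi' * hat g - 1 = hat gi' * (hat g - hat g') := by rw [mul_sub, hgi2']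
      rw [e]
      refine (norm_mul_le _ _).trans_lt ?_
      rw [lt_div_iff₀ hC0] at hlt
      refine lt_of_le_of_lt (mul_le_mul_of_nonneg_right (hbd _ _ (hat_Sy hgi1'))
        (norm_nonneg _)) ?_
      linarith
  choose ψ B B' hψ hB hB' hBB hBB' hne hlt using h1
  have hψt : Tendsto ψ atTop atTop := tendsto_atTop_mono hψ tendsto_id
  have ht0 : Tendsto (fun n => ‖B n - 1‖) atTop (𝓝 0) :=
    squeeze_zero (fun n => norm_nonneg _) (fun n => (hlt n).le)
      tendsto_one_div_add_atTop_nhds_zero_nat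
  obtain ⟨X, φ, hX0, hφ, hflow⟩ := alg_flow (fun n k => hbd _ _ (pow_Sy (hB n) k))
    (fun n k => hbd _ _ (pow_Sy (hB' n) k)) hBB hne ht0
  have hφt : Tendsto φ atTop atTop := hφ.tendsto_atTop
  have hpos : ∀ s : ℝ, 0 ≤ s → (NormedSpace.exp (s • X) : Al d) ∈ Sy L0 := fun s hs =>
    lim_Sy hcomp hlim (hψt.comp hφt) (fun n => pow_Sy (hB (φ n)) _) (hflow s hs).1
  have hneg : ∀ s : ℝ, 0 ≤ s → (NormedSpace.exp (s • (-X)) : Al d) ∈ Sy L0 := fun s hs =>
    lim_Sy hcomp hlim (hψt.comp hφt) (fun n => pow_Sy (hB' (φ n)) _) (hflow s hs).2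
  have hmem : ∀ s : ℝ, 0 ≤ s → (aff (NormedSpace.exp (s • X))) '' L0 = L0 := by
    intro s hs
    apply Subset.antisymm
    · rintro _ ⟨x, hx, rfl⟩
      rw [aff_apply]
      exact (hpos s hs).2 x hx
    · intro y hy
      refine ⟨(NormedSpace.exp (s • (-X)) (y, 1)).1, (hneg s hs).2 y hy, ?_⟩
      rw [aff_apply, ← app_one (hneg s hs).1]
      have h5 : NormedSpace.exp (s • X) * NormedSpace.exp (s • (-X)) = (1 : Al d) :=
        exp_mul_exp_neg X s
      have h6 : NormedSpace.exp (s • X) (NormedSpace.exp (s • (-X)) (y, 1)) = (y, (1 : ℝ)) := by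
        have := congrArg (fun A : Al d => A (y, 1)) h5
        simpa using this
      rw [h6]
  obtain ⟨δ, hδ0, hδ⟩ := exp_inj_near hX0
  refine infinite_of_injOn_mapsTo (s := Ioo (0 : ℝ) δ)
    (f := fun s : ℝ => aff (NormedSpace.exp (s • X))) ?_ (fun s hs => hmem s hs.1.le)
    (Ioo_infinite hδ0)
  have hlt' : ∀ s ∈ Ioo (0 : ℝ) δ, ∀ t ∈ Ioo (0 : ℝ) δ, s < t →
      aff (NormedSpace.exp (s • X)) ≠ aff (NormedSpace.exp (t • X)) := by
    intro s hs t ht hst he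
    exact hδ s hs t ht hst (aff_inj (hpos s hs.1.le).1 (hpos t ht.1.le).1 he)
  intro s hs t ht he
  rcases lt_trichotomy s t with h | h | h
  · exact absurd he (hlt' s hs t ht h)
  · exact h
  · exact absurd he.symm (hlt' t ht s hs h)

end Pool.Agent.H154.C4
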